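import Pool.Agent.TMBridge67.Univ

/-!
# The universal function on bit strings and an enumeration of all programs
-/

set_option autoImplicit false

namespace Pool.Agent.TMB67

open Pool.Agent.PT

/-! ### Reading and writing codes -/

theorem codeLB_eq (x : List Bool) : code x = x.flatMap (fun b => true :: code b) ++ [false] := by
  induction x with
  | nil => rfl
  | cons b x ih =>
    have h : code (b :: x) = true :: (code b ++ code x) := rfl
    rw [h, ih]
    simp

theorem codeLB_polyTime : PolyTime (fun x : List Bool => code x) := by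
  have h : PolyTime (fun x : List Bool => x.flatMap (fun b => true :: code b)) :=
    PolyTime.flatMap (g := fun _ b => true :: code b) PolyTime.id
      (PolyTime.finite_comp (fun b : Bool => true :: code b) PolyTime.snd')
  exact (h.append (PolyTime.const [false])).congr codeLB_eq

/-- Next mode of the reader. -/
def nm (m : Fin 5) (b : Bool) : Fin 5 :=
  if m = 0 then (bif b then 1 else 4) else if m = 1 then (bif b then 2 else 0)
  else if m = 2 then 3 else if m = 3 then 0 else 4

/-- The bit written by the reader. -/
def pb (m : Fin 5) (b : Bool) : Option Bool := if m = 1 then some b else none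

/-- One step of the reader. -/
def readStep (s : Fin 5 × List Bool) (b : Bool) : Fin 5 × List Bool :=
  (nm s.1 b, Option.casesOn (motive := fun _ => List Bool) (pb s.1 b) s.2 fun c => c :: s.2)

/-- Read the code of a list of bits. -/
def readLB (w : List Bool) : List Bool := (w.foldl readStep (0, [])).2.reverse

theorem readStep_polyTime : PolyTime
    (fun p : List Bool × ((Fin 5 × List Bool) × Bool) => readStep p.2.1 p.2.2) := by
  unfold readStep
  refine PolyTime.pair (PolyTime.finite_comp (fun q : Fin 5 × Bool => nm q.1 q.2)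
    (f := fun p : List Bool × ((Fin 5 × List Bool) × Bool) => (p.2.1.1, p.2.2)) (by fun_prop)) ?_
  refine PolyTime.optionCases (PolyTime.finite_comp (fun q : Fin 5 × Bool => pb q.1 q.2)
    (f := fun p : List Bool × ((Fin 5 × List Bool) × Bool) => (p.2.1.1, p.2.2)) (by fun_prop))
    (by fun_prop) (by fun_prop)

theorem readLB_polyTime : PolyTime readLB := by
  obtain ⟨C, hC⟩ := exists_sz_le (β := Fin 5)
  have h := PolyTime.foldl_add (α := List Bool) (l := fun l => l) (g := fun _ => readStep)
    (y := fun _ => (0, [])) PolyTime.id readStep_polyTime (by fun_prop)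
    (s := fun _ => C + 4) (by fun_prop) (by
      intro _ b _ c
      obtain ⟨m, c⟩ := c
      have h1 := hC (nm m b)
      have h2 := sz_bool b
      unfold readStep
      rw [sz_prod, sz_prod]
      cases hp : pb m b with
      | none => simp only; omega
      | some d =>
        simp only
        rw [sz_cons]
        have h3 := sz_bool d
        omega)
  exact PolyTime.reverse (PolyTime.snd h)

theorem readLB_code (x : List Bool) : readLB (code x) = x := by
  have key : ∀ (x acc : List Bool), (code x).foldl readStep (0, acc) = (4, x.reverse ++ acc) := by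
    intro x
    induction x with
    | nil => intro acc; rfl
    | cons b x ih =>
      intro acc
      have h : code (b :: x) = true :: (code b ++ code x) := rfl
      rw [h, List.foldl_cons, List.foldl_append]
      have h2 : (code b).foldl readStep (readStep (0, acc) true) = (0, b :: acc) := by
        cases b <;> rfl
      rw [h2, ih]
      simp
  rw [readLB, key]
  simp

/-- The universal function: run the program `p` for `t` steps on the bit string `x`. -/
def uni (p : Cmd) (t : ℕ) (x : List Bool) : List Bool := readLB (uniRaw p t (code x))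

theorem uni_polyTime : PolyTime (fun q : Cmd × ℕ × List Bool => uni q.1 q.2.1 q.2.2) := by
  refine readLB_polyTime.comp (PolyTime.comp uniRaw_polyTime (f := fun q : Cmd × ℕ × List Bool =>
    (q.1, q.2.1, code q.2.2)) ?_)
  have := codeLB_polyTime.comp (PolyTime.snd (PolyTime.snd (PolyTime.id
    (α := Cmd × ℕ × List Bool))))
  fun_prop

theorem uni_spec {g : List Bool → List Bool} (hg : PolyTime g) :
    ∃ (p : Cmd) (Q : Polynomial ℕ), ∀ (x : List Bool) (t : ℕ), Q.eval x.length ≤ t →
      uni p t x = g x := by
  obtain ⟨p, P, hp⟩ := hg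
  refine ⟨p, P.comp (4 * Polynomial.X + 1), fun x t ht => ?_⟩
  rw [Polynomial.eval_comp] at ht
  obtain ⟨s, hs, hr⟩ := hp x [] [] [] []
  simp only [List.append_nil] at hr
  have h1 : P.eval (sz x) ≤ t := (eval_mono P (by simpa using sz_listBool x)).trans ht
  obtain ⟨m, rfl⟩ := Nat.exists_eq_add_of_le (hs.trans h1)
  rw [uni, uniRaw, add_comm, Function.iterate_add_apply, stepC_run hr, stepC_nil]
  exact readLB_code (g x)

/-- The length of the output of the universal function is polynomially bounded. -/
theorem uni_length (p : Cmd) (t : ℕ) (x : List Bool) :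
    (uni p t x).length ≤ 4 * x.length + 1 + t := by
  have h0 : SInv (sz p) (([p], ⟨code x, [], [], []⟩) : List Cmd × St) := by
    intro c hc
    rcases List.mem_singleton.1 hc with rfl
    exact le_rfl
  obtain ⟨_, _, h2⟩ := stepC_iter_inv t h0
  have h3 : ∀ w : List Bool, (readLB w).length ≤ w.length := by
    intro w
    have key : ∀ (w : List Bool) (s : Fin 5 × List Bool),
        (w.foldl readStep s).2.length ≤ s.2.length + w.length := by
      intro w
      induction w with
      | nil => intro s; simp
      | cons b w ih =>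
        intro s
        refine (ih _).trans ?_
        have : (readStep s b).2.length ≤ s.2.length + 1 := by
          unfold readStep
          cases pb s.1 b <;> simp
        rw [List.length_cons]
        omega
    rw [readLB, List.length_reverse]
    simpa using key w (0, [])
  refine (h3 _).trans ?_
  have h4 := sz_listBool x
  simp only [St.len, List.length_nil] at h2
  have h5 : (code x).length = sz x := rfl
  unfold uniRaw
  omega

/-! ### Enumeration of programs -/

/-- Building instructions. -/
abbrev Tok := Unit ⊕ ((Stk × Bool) ⊕ (Unit ⊕ (Stk ⊕ Stk)))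

/-- Execute a building instruction on a stack of programs. -/
def build (s : List Cmd) : Tok → List Cmd
  | .inl _ => .skip :: s
  | .inr (.inl (k, x)) => .push k x :: s
  | .inr (.inr (.inl _)) => .seq (s.tail.headD .skip) (s.headD .skip) :: s.tail.tail
  | .inr (.inr (.inr (.inl k))) =>
      .case k (s.tail.tail.headD .skip) (s.tail.headD .skip) (s.headD .skip) :: s.tail.tail.tail
  | .inr (.inr (.inr (.inr k))) => .loop k (s.headD .skip) :: s.tail

theorem build_correct (p : Cmd) : ∃ l : List Tok, ∀ s, l.foldl build s = p :: s := by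
  induction p with
  | skip => exact ⟨[.inl ()], fun s => rfl⟩
  | push k x => exact ⟨[.inr (.inl (k, x))], fun s => rfl⟩
  | seq p q ihp ihq =>
    obtain ⟨l, hl⟩ := ihp
    obtain ⟨m, hm⟩ := ihq
    exact ⟨l ++ (m ++ [.inr (.inr (.inl ()))]), fun s => by
      rw [List.foldl_append, List.foldl_append, hl, hm]; rfl⟩
  | case k p q r ihp ihq ihr =>
    obtain ⟨l, hl⟩ := ihp
    obtain ⟨m, hm⟩ := ihq
    obtain ⟨n, hn⟩ := ihr
    exact ⟨l ++ (m ++ (n ++ [.inr (.inr (.inr (.inl k)))])), fun s => by
      rw [List.foldl_append, List.foldl_append, List.foldl_append, hl, hm, hn]; rfl⟩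
  | loop k p ihp =>
    obtain ⟨l, hl⟩ := ihp
    exact ⟨l ++ [.inr (.inr (.inr (.inr k)))], fun s => by
      rw [List.foldl_append, hl]; rfl⟩

theorem cmd_mk_polyTime {α : Type} [Enc α] {f : α → CU} {g : α → Cmd} (hf : PolyTime f)
    (h : ∀ x, unfoldC (g x) = f x) : PolyTime g :=
  hf.congr_toD fun x => by rw [← unfoldC_toD, h]

theorem build_polyTime {α : Type} [Enc α] {s : α → List Cmd} {t : α → Tok} (hs : PolyTime s)
    (ht : PolyTime t) : PolyTime (fun x => build (s x) (t x)) := by
  refine polyTime_finCases (t := t) ht (g := fun t x => build (s x) t) fun t => ?_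
  have h1 : PolyTime (fun x => (s x).headD .skip) := PolyTime.headD hs (PolyTime.const _)
  have h2 : PolyTime (fun x => (s x).tail.headD .skip) :=
    PolyTime.headD hs.tail (PolyTime.const _)
  have h3 : PolyTime (fun x => (s x).tail.tail.headD .skip) :=
    PolyTime.headD hs.tail.tail (PolyTime.const _)
  rcases t with t | ⟨k, x⟩ | t | k | k
  · exact PolyTime.cons (PolyTime.const _) hs
  · exact PolyTime.cons (PolyTime.const _) hs
  · exact PolyTime.cons (cmd_mk_polyTime (f := fun x => .inr (.inr (.inl
      ((s x).tail.headD .skip, (s x).headD .skip)))) (by fun_prop) fun _ => rfl) hs.tail.tail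
  · exact PolyTime.cons (cmd_mk_polyTime (f := fun x => .inr (.inr (.inr (.inl
      (k, (s x).tail.tail.headD .skip, (s x).tail.headD .skip, (s x).headD .skip)))))
      (by fun_prop) fun _ => rfl) hs.tail.tail.tail
  · exact PolyTime.cons (cmd_mk_polyTime (f := fun x => .inr (.inr (.inr (.inr
      (k, (s x).headD .skip))))) (by fun_prop) fun _ => rfl) hs.tail

theorem sz_seq_eq (p q : Cmd) : sz (Cmd.seq p q) = sz p + sz q + 11 := by
  rw [← sz_eq_of_toD (unfoldC_toD (Cmd.seq p q))]
  change (Dt.enc (Enc.toD (unfoldC (Cmd.seq p q)))).length = _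
  simp only [unfoldC, toD_inr, toD_inl, toD_prod, Dt.enc_cons, Dt.enc_nil, List.length_cons,
    List.length_append, List.length_nil]
  change _ = (Enc.toD p).enc.length + (Enc.toD q).enc.length + 11
  omega

theorem sz_case_eq (k : Stk) (p q r : Cmd) : sz (Cmd.case k p q r) =
    sz k + sz p + sz q + sz r + 17 := by
  rw [← sz_eq_of_toD (unfoldC_toD (Cmd.case k p q r))]
  change (Dt.enc (Enc.toD (unfoldC (Cmd.case k p q r)))).length = _
  simp only [unfoldC, toD_inr, toD_inl, toD_prod, Dt.enc_cons, Dt.enc_nil, List.length_cons,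
    List.length_append, List.length_nil]
  change _ = (Enc.toD k).enc.length + (Enc.toD p).enc.length +
    (Enc.toD q).enc.length + (Enc.toD r).enc.length + 17
  omega

theorem sz_loop_eq (k : Stk) (p : Cmd) : sz (Cmd.loop k p) = sz k + sz p + 17 := by
  rw [← sz_eq_of_toD (unfoldC_toD (Cmd.loop k p))]
  change (Dt.enc (Enc.toD (unfoldC (Cmd.loop k p)))).length = _
  simp only [unfoldC, toD_inr, toD_prod, Dt.enc_cons, Dt.enc_nil, List.length_cons,
    List.length_append, List.length_nil]
  change _ = (Enc.toD k).enc.length + (Enc.toD p).enc.length + 17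
  omega

theorem sz_headD_tail (s : List Cmd) : sz (s.headD .skip) + sz s.tail ≤ sz s + sz Cmd.skip := by
  cases s with
  | nil => simp
  | cons c r =>
    rw [List.headD_cons, List.tail_cons, sz_cons]
    omega

theorem build_sz : ∃ C : ℕ, ∀ (s : List Cmd) (t : Tok), sz (build s t) ≤ sz s + C := by
  obtain ⟨A, hA⟩ := exists_sz_le (β := Stk)
  obtain ⟨B, hB⟩ := exists_sz_le (β := Tok)
  obtain ⟨E, hE⟩ : ∃ E : ℕ, ∀ q : Stk × Bool, sz (Cmd.push q.1 q.2) ≤ E := by
    obtain ⟨C, hC⟩ := (Set.finite_range (fun q : Stk × Bool => sz (Cmd.push q.1 q.2))).bddAbove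
    exact ⟨C, fun b => hC ⟨b, rfl⟩⟩
  refine ⟨A + E + 3 * sz Cmd.skip + 30, fun s t => ?_⟩
  have h1 := sz_headD_tail s
  have h2 := sz_headD_tail s.tail
  have h3 := sz_headD_tail s.tail.tail
  rcases t with t | ⟨k, x⟩ | t | k | k
  · change sz (Cmd.skip :: s) ≤ _
    rw [sz_cons]
    omega
  · change sz (Cmd.push k x :: s) ≤ _
    have := hE (k, x)
    rw [sz_cons]
    simp only at this
    omega
  · change sz (Cmd.seq (s.tail.headD .skip) (s.headD .skip) :: s.tail.tail) ≤ _
    rw [sz_cons, sz_seq_eq]
    omega
  · change sz (Cmd.case k (s.tail.tail.headD .skip) (s.tail.headD .skip) (s.headD .skip) ::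
      s.tail.tail.tail) ≤ _
    have := hA k
    rw [sz_cons, sz_case_eq]
    omega
  · change sz (Cmd.loop k (s.headD .skip) :: s.tail) ≤ _
    have := hA k
    rw [sz_cons, sz_loop_eq]
    omega

/-- A list of all building instructions. -/
noncomputable def toks : List Tok := (Finite.exists_univ_list Tok).choose

theorem mem_toks (t : Tok) : t ∈ toks := (Finite.exists_univ_list Tok).choose_spec.2 t

/-- One step of the computation of the digits of a number. -/
def digStep (m : ℕ) (s : ℕ × List ℕ) : ℕ × List ℕ :=
  if s.1 = 0 then s else ((s.1 - 1) / m, (s.1 - 1) % m :: s.2)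

/-- Digits in bijective base `m`. -/
def dig (m n : ℕ) : List ℕ := ((digStep m)^[n] (n, [])).2

/-- The number with given digits in bijective base `m`. -/
def undig (m : ℕ) (l : List ℕ) : ℕ := l.foldl (fun n d => n * m + d + 1) 0

theorem undig_append (m : ℕ) (l : List ℕ) (d : ℕ) :
    undig m (l ++ [d]) = undig m l * m + d + 1 := by
  simp [undig, List.foldl_append]

theorem digStep_zero (m i : ℕ) (acc : List ℕ) : (digStep m)^[i] (0, acc) = (0, acc) := by
  induction i with
  | zero => rfl
  | succ i ih =>
    rw [Function.iterate_succ_apply]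
    exact ih

theorem dig_iter (m : ℕ) (l : List ℕ) (hl : ∀ d ∈ l, d < m) : ∀ (i : ℕ) (acc : List ℕ),
    l.length ≤ i → (digStep m)^[i] (undig m l, acc) = (0, l ++ acc) := by
  induction l using List.reverseRecOn with
  | nil =>
    intro i acc _
    exact digStep_zero m i acc
  | append_singleton l d ih =>
    intro i acc hi
    have hd : d < m := hl d (by simp)
    rw [List.length_append, List.length_singleton] at hi
    obtain ⟨j, rfl⟩ : ∃ j, i = j + 1 := ⟨i - 1, by omega⟩
    rw [Function.iterate_succ_apply, undig_append]
    have hs : digStep m (undig m l * m + d + 1, acc) = (undig m l, d :: acc) := by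
      unfold digStep
      have h1 : (undig m l * m + d) / m = undig m l := by
        rw [mul_comm, Nat.mul_add_div (by omega), Nat.div_eq_of_lt hd, add_zero]
      have h2 : (undig m l * m + d) % m = d := by
        rw [mul_comm, Nat.mul_add_mod, Nat.mod_eq_of_lt hd]
      simp [h1, h2]
    rw [hs, ih (fun d hd => hl d (by simp [hd])) j (d :: acc) (by omega)]
    simp

theorem le_undig {m : ℕ} (hm : 0 < m) (l : List ℕ) : l.length ≤ undig m l := by
  induction l using List.reverseRecOn with
  | nil => simp
  | append_singleton l d ih =>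
    rw [undig_append, List.length_append, List.length_singleton]
    have := Nat.le_mul_of_pos_right (undig m l) hm
    omega

theorem dig_undig {m : ℕ} (hm : 0 < m) (l : List ℕ) (hl : ∀ d ∈ l, d < m) :
    dig m (undig m l) = l := by
  rw [dig, dig_iter m l hl _ [] (le_undig hm l)]
  simp

theorem dig_polyTime (m : ℕ) : PolyTime (dig m) := by
  have hstep : PolyTime (digStep m) := by
    unfold digStep
    exact PolyTime.ite (PolyTime.decide_eq (by fun_prop) (by fun_prop)) PolyTime.id
      (PolyTime.pair (PolyTime.natDiv (by fun_prop) (by fun_prop))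
        (PolyTime.cons (PolyTime.natMod (by fun_prop) (by fun_prop)) (by fun_prop)))
  have key : ∀ (i n : ℕ) (acc : List ℕ), (∀ d ∈ acc, d ≤ n) →
      ((digStep m)^[i] (n, acc)).1 ≤ n ∧ (∀ d ∈ ((digStep m)^[i] (n, acc)).2, d ≤ n) ∧
      ((digStep m)^[i] (n, acc)).2.length ≤ acc.length + i := by
    intro i
    induction i with
    | zero => intro n acc h; exact ⟨le_rfl, h, le_rfl⟩
    | succ i ih =>
      intro n acc h
      obtain ⟨h1, h2, h3⟩ := ih n acc h
      rw [Function.iterate_succ_apply']
      generalize (digStep m)^[i] (n, acc) = s at h1 h2 h3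
      unfold digStep
      by_cases hs : s.1 = 0
      · rw [if_pos hs]
        exact ⟨h1, h2, by omega⟩
      · rw [if_neg hs]
        refine ⟨(Nat.div_le_self _ _).trans (by omega), ?_, by simp; omega⟩
        intro d hd
        rcases List.mem_cons.1 hd with rfl | hd
        · exact (Nat.mod_le _ _).trans (by omega)
        · exact h2 d hd
  refine PolyTime.snd (PolyTime.iterate (s := fun n => sz n + (sz n * (sz n + 1) + 1) + 1)
    hstep PolyTime.id (g := fun n => (n, [])) (by fun_prop) (by fun_prop) ?_)
  intro n i hi
  obtain ⟨h1, h2, h3⟩ := key i n [] (by simp)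
  have h4 := sz_le_of_forall (l := ((digStep m)^[i] (n, [])).2) (B := sz n)
    (fun d hd => by rw [sz_nat, sz_nat]; have := h2 d hd; omega)
  have h5 : sz ((digStep m)^[i] (n, [])) = sz ((digStep m)^[i] (n, [])).1 +
    sz ((digStep m)^[i] (n, [])).2 + 1 := sz_prod _
  have h7 : sz ((digStep m)^[i] (n, [])).1 ≤ sz n := by rw [sz_nat, sz_nat]; omega
  have h8 : n ≤ sz n := by rw [sz_nat]; omega
  rw [h5]
  have h6 : ((digStep m)^[i] (n, [])).2.length * (sz n + 1) ≤
      sz n * (sz n + 1) := Nat.mul_le_mul_right _ (by
        have : i ≤ n := hi.le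
        simp only [List.length_nil] at h3
        omega)
  omega

/-- An enumeration of all programs. -/
noncomputable def cmdOf (n : ℕ) : Cmd :=
  (((dig toks.length n).map fun d => toks.getD d (.inl ())).foldl build []).headD .skip

theorem cmdOf_surjective : Function.Surjective cmdOf := by
  intro p
  obtain ⟨l, hl⟩ := build_correct p
  have hpos : 0 < toks.length := List.length_pos_of_mem (mem_toks (.inl ()))
  have hidx : ∀ l : List Tok, ∃ v : List ℕ, (∀ d ∈ v, d < toks.length) ∧
      v.map (fun d => toks.getD d (.inl ())) = l := by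
    intro l
    induction l with
    | nil => exact ⟨[], by simp, rfl⟩
    | cons t l ih =>
      obtain ⟨v, hv, hv'⟩ := ih
      obtain ⟨i, hi, hi'⟩ := List.mem_iff_getElem.1 (mem_toks t)
      refine ⟨i :: v, by simpa using ⟨hi, hv⟩, ?_⟩
      rw [List.map_cons, hv', List.getD_eq_getElem _ _ hi, hi']
  obtain ⟨v, hv, hv'⟩ := hidx l
  refine ⟨undig toks.length v, ?_⟩
  rw [cmdOf, dig_undig hpos v hv, hv', hl]
  rfl

theorem cmdOf_polyTime : PolyTime cmdOf := by
  obtain ⟨C, hC⟩ := build_sz
  unfold cmdOf
  refine PolyTime.headD ?_ (PolyTime.const _)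
  have h1 : PolyTime (fun n => (dig toks.length n).map fun d => toks.getD d (.inl ())) :=
    PolyTime.map (g := fun _ d => toks.getD d (.inl ())) (dig_polyTime _)
      (PolyTime.getD (PolyTime.const _) (by fun_prop) (PolyTime.const _))
  exact PolyTime.foldl_add (g := fun _ s t => build s t) (y := fun _ => []) h1
    (build_polyTime (by fun_prop) (by fun_prop)) (by fun_prop) (s := fun _ => C) (by fun_prop)
    (fun _ t _ s => hC s t)

end Pool.Agent.TMB67
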