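import Pool.Agent.TMBridge67.Sim
import Pool.Prelude.Def_H_3587d628

/-!
# `IsPolyTime` of the problem files is `PolyTime`

For the bit-string encodings used in the problem files (Booleans, lists, pairs) the notion of
polynomial-time computability by Mathlib's Turing machines agrees with `PT.PolyTime`.
-/

set_option autoImplicit false

namespace Pool.Agent.TMB67

open Pool.Agent.PT N68a2faeb N487b59b3

/-- The bit-string encoding and the tree coding are polynomial-time equivalent. -/
class Compat (α : Type) [N487b59b3 α] [Enc α] : Prop where
  /-- the encoding is polynomial time -/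
  enc : PolyTime (fun x : α => bitEncode x)
  /-- the decoding is polynomial time -/
  dec : ∃ D : List Bool → α, PolyTime D ∧ ∀ x : α, D (bitEncode x) = x

theorem isPolyTime_iff_exists {α β : Type} [N487b59b3 α] [N487b59b3 β] {f : α → β} :
    IsPolyTime f ↔ ∃ g : List Bool → List Bool, PolyTime g ∧
      ∀ x, g (bitEncode x) = bitEncode (f x) := by
  constructor
  · intro h
    exact exists_polyTime_of_tm2 h
  · rintro ⟨g, hg, h⟩
    exact hg.tm2_string _ _ f h

/-- The notion of the problem files agrees with `PolyTime`. -/
theorem isPolyTime_iff {α β : Type} [N487b59b3 α] [N487b59b3 β] [Enc α] [Enc β] [Compat α]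
    [Compat β] {f : α → β} : IsPolyTime f ↔ PolyTime f := by
  rw [isPolyTime_iff_exists]
  constructor
  · rintro ⟨g, hg, h⟩
    obtain ⟨D, hD, hD'⟩ := Compat.dec (α := β)
    refine (hD.comp (hg.comp (Compat.enc (α := α)))).congr fun x => ?_
    rw [h, hD']
  · intro hf
    obtain ⟨D, hD, hD'⟩ := Compat.dec (α := α)
    refine ⟨fun w => bitEncode (f (D w)), (Compat.enc (α := β)).comp (hf.comp hD), fun x => ?_⟩
    simp only [hD']

instance instCompatBool : Compat Bool where
  enc := (PolyTime.cons PolyTime.id (PolyTime.const [])).congr fun _ => rfl
  dec := ⟨fun w => w.headD false, PolyTime.headD PolyTime.id (PolyTime.const false), fun _ => rfl⟩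

theorem delimit_eq (l : List Bool) :
    delimit l = l.flatMap (fun b => [true, b]) ++ [false] := by
  induction l with
  | nil => rfl
  | cons b l ih => simp [delimit, ih]

theorem delimit_polyTime : PolyTime delimit := by
  have h : PolyTime (fun l : List Bool => l.flatMap (fun b => [true, b])) :=
    PolyTime.flatMap (g := fun _ b => [true, b]) PolyTime.id (by fun_prop)
  exact (h.append (PolyTime.const [false])).congr delimit_eq

/-- Parser state: (mode, current block reversed, finished blocks reversed). -/
def parseStep (s : Bool × List Bool × List (List Bool)) (b : Bool) :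
    Bool × List Bool × List (List Bool) :=
  bif s.1 then (false, b :: s.2.1, s.2.2)
  else bif b then (true, s.2.1, s.2.2) else (false, [], s.2.1.reverse :: s.2.2)

/-- The blocks of a concatenation of delimited blocks. -/
def parseBlocks (l : List Bool) : List (List Bool) :=
  (l.foldl parseStep (false, [], [])).2.2.reverse

theorem parse_delimit (w : List Bool) : ∀ (c : List Bool) (B : List (List Bool)),
    (delimit w).foldl parseStep (false, c, B) = (false, [], (c.reverse ++ w) :: B) := by
  induction w with
  | nil => intro c B; simp [delimit, parseStep]
  | cons b w ih =>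
    intro c B
    have := ih (b :: c) B
    simp only [delimit, List.foldl_cons]
    rw [show parseStep (parseStep (false, c, B) true) b = (false, b :: c, B) from rfl, this]
    simp

theorem parseBlocks_spec (l : List (List Bool)) : parseBlocks ((l.map delimit).flatten) = l := by
  have key : ∀ (l B : List (List Bool)), ((l.map delimit).flatten).foldl parseStep (false, [], B) =
      (false, [], l.reverse ++ B) := by
    intro l
    induction l with
    | nil => intro B; rfl
    | cons w l ih =>
      intro B
      rw [List.map_cons, List.flatten_cons, List.foldl_append, parse_delimit, ih]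
      simp
  rw [parseBlocks, key]
  simp

theorem sz_true : sz true = 3 := rfl

theorem sz_false : sz false = 1 := rfl

theorem parseStep_polyTime : PolyTime
    (fun p : List Bool × ((Bool × List Bool × List (List Bool)) × Bool) =>
      parseStep p.2.1 p.2.2) := by
  unfold parseStep
  refine PolyTime.cond (by fun_prop) (by fun_prop) (PolyTime.cond (by fun_prop) (by fun_prop)
    (by fun_prop))

theorem parseStep_sz (c : Bool × List Bool × List (List Bool)) (b : Bool) :
    sz (parseStep c b) ≤ sz c + 6 := by
  obtain ⟨m, c, B⟩ := c
  have hb := sz_bool b
  have h1 : 0 < sz c := sz_pos _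
  unfold parseStep
  cases m
  · cases b
    · simp only [cond_false, sz_prod, sz_cons, sz_nil, sz_reverse, sz_false]
      omega
    · simp only [cond_false, cond_true, sz_prod, sz_false, sz_true]
      omega
  · simp only [cond_true, sz_prod, sz_cons, sz_false, sz_true]
    omega

theorem parseBlocks_polyTime : PolyTime parseBlocks := by
  have h := PolyTime.foldl_add (α := List Bool) (l := fun l => l) (g := fun _ => parseStep)
    (y := fun _ => (false, [], [])) PolyTime.id parseStep_polyTime (by fun_prop)
    (s := fun _ => 6) (by fun_prop) (fun _ b _ c => parseStep_sz c b)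
  exact (PolyTime.reverse (PolyTime.snd (PolyTime.snd h)))

section list

variable {α β : Type} [N487b59b3 α] [N487b59b3 β] [Enc α] [Enc β] [Compat α] [Compat β]

instance instCompatList : Compat (List α) where
  enc := by
    have h1 : PolyTime (fun l : List α => l.map (fun x => delimit (bitEncode x))) :=
      PolyTime.map (g := fun _ x => delimit (bitEncode x)) PolyTime.id
        (delimit_polyTime.comp ((Compat.enc (α := α)).comp PolyTime.snd'))
    refine (PolyTime.flatten h1).congr fun l => ?_
    change ((l.map bitEncode).map delimit).flatten = _
    rw [List.map_map]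
    rfl
  dec := by
    obtain ⟨D, hD, hD'⟩ := Compat.dec (α := α)
    refine ⟨fun w => (parseBlocks w).map D, PolyTime.map (g := fun _ x => D x)
      parseBlocks_polyTime (hD.comp PolyTime.snd'), fun l => ?_⟩
    change (parseBlocks ((l.map bitEncode).map delimit).flatten).map D = l
    rw [parseBlocks_spec, List.map_map]
    conv_rhs => rw [← List.map_id l]
    refine List.map_congr_left fun x _ => ?_
    exact hD' x

/-- Parser state for pairs: (mode, first component reversed, second component reversed). -/
def pairStep (s : (Bool × Bool) × List Bool × List Bool) (b : Bool) :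
    (Bool × Bool) × List Bool × List Bool :=
  bif s.1.1 then ((true, false), s.2.1, b :: s.2.2)
  else bif s.1.2 then ((false, false), b :: s.2.1, s.2.2)
  else bif b then ((false, true), s.2.1, s.2.2) else ((true, false), s.2.1, s.2.2)

/-- Split a delimited block from the rest. -/
def splitPair (l : List Bool) : List Bool × List Bool :=
  ((l.foldl pairStep ((false, false), [], [])).2.1.reverse,
    (l.foldl pairStep ((false, false), [], [])).2.2.reverse)

theorem pair_delimit (w : List Bool) : ∀ (c d : List Bool),
    (delimit w).foldl pairStep ((false, false), c, d) = ((true, false), w.reverse ++ c, d) := by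
  induction w with
  | nil => intro c d; simp [delimit, pairStep]
  | cons b w ih =>
    intro c d
    simp only [delimit, List.foldl_cons]
    rw [show pairStep (pairStep ((false, false), c, d) true) b = ((false, false), b :: c, d)
      from rfl, ih]
    simp

theorem pair_rest (w : List Bool) : ∀ (c d : List Bool),
    w.foldl pairStep ((true, false), c, d) = ((true, false), c, w.reverse ++ d) := by
  induction w with
  | nil => intro c d; simp
  | cons b w ih =>
    intro c d
    simp only [List.foldl_cons]
    rw [show pairStep ((true, false), c, d) b = ((true, false), c, b :: d) from rfl, ih]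
    simp

theorem splitPair_spec (u v : List Bool) : splitPair (delimit u ++ v) = (u, v) := by
  rw [splitPair, List.foldl_append, pair_delimit, pair_rest]
  simp

theorem pairStep_polyTime : PolyTime
    (fun p : List Bool × (((Bool × Bool) × List Bool × List Bool) × Bool) =>
      pairStep p.2.1 p.2.2) := by
  unfold pairStep
  refine PolyTime.cond (by fun_prop) (by fun_prop) (PolyTime.cond (by fun_prop) (by fun_prop)
    (PolyTime.cond (by fun_prop) (by fun_prop) (by fun_prop)))

theorem pairStep_sz (c : (Bool × Bool) × List Bool × List Bool) (b : Bool) :
    sz (pairStep c b) ≤ sz c + 10 := by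
  obtain ⟨⟨m, m'⟩, c, d⟩ := c
  have hb := sz_bool b
  unfold pairStep
  cases m
  · cases m'
    · cases b
      · simp only [cond_false, sz_prod, sz_false, sz_true]
        omega
      · simp only [cond_false, cond_true, sz_prod, sz_false, sz_true]
        omega
    · simp only [cond_false, cond_true, sz_prod, sz_cons, sz_false, sz_true]
      omega
  · cases m'
    · simp only [cond_true, sz_prod, sz_cons, sz_false, sz_true]
      omega
    · simp only [cond_true, sz_prod, sz_cons, sz_false, sz_true]
      omega

theorem splitPair_polyTime : PolyTime splitPair := by
  have h := PolyTime.foldl_add (α := List Bool) (l := fun l => l) (g := fun _ => pairStep)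
    (y := fun _ => ((false, false), [], [])) PolyTime.id pairStep_polyTime (by fun_prop)
    (s := fun _ => 10) (by fun_prop) (fun _ b _ c => pairStep_sz c b)
  exact PolyTime.pair (PolyTime.reverse (PolyTime.fst (PolyTime.snd h)))
    (PolyTime.reverse (PolyTime.snd (PolyTime.snd h)))

instance instCompatProd : Compat (α × β) where
  enc := by
    have h1 : PolyTime (fun p : α × β => delimit (bitEncode p.1)) :=
      delimit_polyTime.comp ((Compat.enc (α := α)).comp PolyTime.fst')
    exact (h1.append ((Compat.enc (α := β)).comp PolyTime.snd')).congr fun p => rfl
  dec := by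
    obtain ⟨D, hD, hD'⟩ := Compat.dec (α := α)
    obtain ⟨D₂, hD₂, hD₂'⟩ := Compat.dec (α := β)
    refine ⟨fun w => (D (splitPair w).1, D₂ (splitPair w).2),
      PolyTime.pair (hD.comp (PolyTime.fst splitPair_polyTime))
        (hD₂.comp (PolyTime.snd splitPair_polyTime)), fun p => ?_⟩
    have h : splitPair (bitEncode p) = (bitEncode p.1, bitEncode p.2) :=
      splitPair_spec (bitEncode p.1) (bitEncode p.2)
    change (D (splitPair (bitEncode p)).1, D₂ (splitPair (bitEncode p)).2) = p
    rw [h]
    exact Prod.ext (hD' p.1) (hD₂' p.2)

end list

end Pool.Agent.TMB67
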