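import Pool.Agent.PT.More

/-!
# Codings of finite types and of tuples; finite case analysis in polynomial time
-/

set_option autoImplicit false

namespace Pool.Agent.TMB67

open Pool.Agent.PT

/-- A coding of a finite type. -/
@[reducible] noncomputable def encFinite (β : Type) [Finite β] : Enc β :=
  Enc.ofInj (Finite.equivFin β) (Finite.equivFin β).injective

theorem ofFn_inj (K : Type) [Finite K] (β : Type) :
    Function.Injective (fun f : K → β => List.ofFn (fun i => f ((Finite.equivFin K).symm i))) := by
  intro f g h
  have h' := List.ofFn_injective h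
  funext k
  have := congrFun h' (Finite.equivFin K k)
  simpa using this

/-- A coding of tuples indexed by a finite type. -/
@[reducible] noncomputable def encPi (K : Type) [Finite K] (β : Type) [Enc β] : Enc (K → β) :=
  Enc.ofInj (fun f => List.ofFn (fun i => f ((Finite.equivFin K).symm i))) (ofFn_inj K β)

section pi

variable {α β : Type} [Enc α] [Enc β] {K : Type} [Finite K]

attribute [local instance] encPi

theorem polyTime_toList : PolyTime
    (fun f : K → β => List.ofFn (fun i => f ((Finite.equivFin K).symm i))) :=
  PolyTime.of_toD fun _ => rfl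

theorem polyTime_eval (b0 : β) {f : α → K → β} (hf : PolyTime f) (k : K) :
    PolyTime (fun x => f x k) := by
  have h := PolyTime.getD (polyTime_toList.comp hf) (PolyTime.const ((Finite.equivFin K k : Fin _) : ℕ))
    (PolyTime.const b0)
  refine h.congr fun x => ?_
  rw [List.getD_eq_getElem?_getD, List.getElem?_ofFn]
  simp

theorem polyTime_ofFn : ∀ (n : ℕ) (h : Fin n → α → β), (∀ i, PolyTime (h i)) →
    PolyTime (fun x => List.ofFn (fun i => h i x)) := by
  intro n
  induction n with
  | zero => intro h _; exact (PolyTime.const []).congr fun x => by simp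
  | succ n ih =>
    intro h hh
    refine ((hh 0).cons (ih (fun i => h i.succ) fun i => hh i.succ)).congr fun x => ?_
    rw [List.ofFn_succ]

theorem polyTime_pi {f : α → K → β} (hf : ∀ k, PolyTime (fun x => f x k)) : PolyTime f :=
  (polyTime_ofFn _ (fun i x => f x ((Finite.equivFin K).symm i)) fun _ => hf _).congr_toD
    fun _ => rfl

theorem sz_pi_le (f : K → β) (B : ℕ) (h : ∀ k, sz (f k) ≤ B) :
    sz f ≤ Nat.card K * (B + 1) + 1 := by
  have h1 : sz f = sz (List.ofFn (fun i => f ((Finite.equivFin K).symm i))) := rfl
  rw [h1]
  have h2 := sz_le_of_forall (l := List.ofFn (fun i => f ((Finite.equivFin K).symm i))) (B := B)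
    (by
      intro x hx
      rw [List.mem_ofFn] at hx
      obtain ⟨i, rfl⟩ := hx
      exact h _)
  simpa using h2

end pi

section cases

variable {α β γ : Type} [Enc α] [Enc β] [Enc γ]

/-- Case analysis on the value of a function into a finite type. -/
theorem polyTime_finCases [Finite β] {t : α → β} (ht : PolyTime t) {g : β → α → γ}
    (hg : ∀ b, PolyTime (g b)) : PolyTime (fun x => g (t x) x) := by
  classical
  have key : ∀ l : List β, ∃ G : α → γ, PolyTime G ∧ ∀ x, t x ∈ l → G x = g (t x) x := by
    intro l
    induction l with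
    | nil =>
      by_cases hn : Nonempty γ
      · obtain ⟨c⟩ := hn
        exact ⟨fun _ => c, by fun_prop, by simp⟩
      · refine ⟨fun x => g (t x) x, ⟨.skip, 1, fun x => (hn ⟨g (t x) x⟩).elim⟩, by simp⟩
    | cons z l ih =>
      obtain ⟨G, hG, hGl⟩ := ih
      refine ⟨fun x => if t x = z then g z x else G x,
        PolyTime.ite (by fun_prop) (hg z) hG, fun x hx => ?_⟩
      by_cases h : t x = z
      · simp [h]
      · simp only [h, if_false]
        exact hGl x (by simpa [h] using hx)
  obtain ⟨l, hl⟩ := Finite.exists_univ_list β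
  obtain ⟨G, hG, hGl⟩ := key l
  exact hG.congr fun x => (hGl x (hl.2 (t x))).symm

theorem exists_sz_le [Finite β] : ∃ C : ℕ, ∀ b : β, sz b ≤ C := by
  obtain ⟨C, hC⟩ := (Set.finite_range (fun b : β => sz b)).bddAbove
  exact ⟨C, fun b => hC ⟨b, rfl⟩⟩

end cases

end Pool.Agent.TMB67
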