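import Pool.Agent.TMBridge67.Fin
import Pool.Agent.PT.Bridge
import Pool.Agent.PT.Arith

/-!
# Simulation of Mathlib's polynomial-time Turing machines by `PolyTime` functions
-/

set_option autoImplicit false

namespace Pool.Agent.TMB67

open Pool.Agent.PT Turing StateTransition

attribute [local instance] encPi

section sim

variable (M : FinTM2)

attribute [local instance] FinTM2.ΛFin FinTM2.σFin FinTM2.Γk₀Fin FinTM2.kFin

/-- The symbols pushed by a statement. -/
def pushes : TM2.Stmt M.Γ M.Λ M.σ → Set (Σ k, M.Γ k)
  | .push k f q => Set.range (fun v => (⟨k, f v⟩ : Σ k, M.Γ k)) ∪ pushes q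
  | .peek _ _ q => pushes q
  | .pop _ _ q => pushes q
  | .load _ q => pushes q
  | .branch _ q₁ q₂ => pushes q₁ ∪ pushes q₂
  | .goto _ => ∅
  | .halt => ∅

theorem pushes_finite (q : TM2.Stmt M.Γ M.Λ M.σ) : (pushes M q).Finite := by
  induction q with
  | push k f q ih => exact (Set.finite_range _).union ih
  | peek k f q ih => exact ih
  | pop k f q ih => exact ih
  | load a q ih => exact ih
  | branch f q₁ q₂ ih₁ ih₂ => exact ih₁.union ih₂
  | goto f => exact Set.finite_empty
  | halt => exact Set.finite_empty

/-- The symbols which can occur. -/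
def W : Set (Σ k, M.Γ k) :=
  Set.range (fun x : M.Γ M.k₀ => (⟨M.k₀, x⟩ : Σ k, M.Γ k)) ∪ ⋃ l, pushes M (M.m l)

theorem W_finite : (W M).Finite :=
  (Set.finite_range _).union (Set.finite_iUnion fun l => pushes_finite M (M.m l))

/-- Codes of symbols. -/
abbrev U := Option (W M)

instance instFiniteW : Finite (W M) := (W_finite M).to_subtype

open Classical in
/-- The code of a symbol. -/
noncomputable def sEnc (k : M.K) (x : M.Γ k) : U M :=
  if h : (⟨k, x⟩ : Σ k, M.Γ k) ∈ W M then some ⟨⟨k, x⟩, h⟩ else none

/-- The symbol with a given code. -/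
noncomputable def sDec (k : M.K) : U M → Option (M.Γ k)
  | none => none
  | some w => if h : w.1.1 = k then some (h ▸ w.1.2) else none

theorem sDec_sEnc {k : M.K} {x : M.Γ k} (h : (⟨k, x⟩ : Σ k, M.Γ k) ∈ W M) :
    sDec M k (sEnc M k x) = some x := by
  unfold sEnc
  rw [dif_pos h]
  simp [sDec]

/-- Simulated states. -/
abbrev Stt := (Option M.Λ × M.σ) × (M.K → List (U M))

/-- Simulated execution of a statement. -/
noncomputable def simAux : TM2.Stmt M.Γ M.Λ M.σ → M.σ × (M.K → List (U M)) → Stt M
  | .push k f q => fun p =>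
      simAux q (p.1, Function.update p.2 k (sEnc M k (f p.1) :: p.2 k))
  | .peek k f q => fun p => simAux q (f p.1 ((p.2 k).head?.bind (sDec M k)), p.2)
  | .pop k f q => fun p =>
      simAux q (f p.1 ((p.2 k).head?.bind (sDec M k)), Function.update p.2 k (p.2 k).tail)
  | .load a q => fun p => simAux q (a p.1, p.2)
  | .branch f q₁ q₂ => fun p => bif f p.1 then simAux q₁ p else simAux q₂ p
  | .goto f => fun p => ((some (f p.1), p.1), p.2)
  | .halt => fun p => ((none, p.1), p.2)

/-- Coded stacks. -/
noncomputable def encS (S : ∀ k, List (M.Γ k)) : M.K → List (U M) :=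
  fun k => (S k).map (sEnc M k)

/-- All symbols are codable. -/
def GoodS (S : ∀ k, List (M.Γ k)) : Prop := ∀ k, ∀ x ∈ S k, (⟨k, x⟩ : Σ k, M.Γ k) ∈ W M

theorem head_dec {k : M.K} {l : List (M.Γ k)} (h : ∀ x ∈ l, (⟨k, x⟩ : Σ k, M.Γ k) ∈ W M) :
    (l.map (sEnc M k)).head?.bind (sDec M k) = l.head? := by
  cases l with
  | nil => rfl
  | cons a l => simpa using sDec_sEnc M (h a (by simp))

theorem encS_update (S : ∀ k, List (M.Γ k)) (k : M.K) (l : List (M.Γ k)) :
    encS M (Function.update S k l) = Function.update (encS M S) k (l.map (sEnc M k)) := by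
  funext j
  by_cases h : j = k
  · subst h
    simp [encS]
  · simp [encS, Function.update_of_ne h]

theorem goodS_update {S : ∀ k, List (M.Γ k)} (hS : GoodS M S) {k : M.K} {l : List (M.Γ k)}
    (hl : ∀ x ∈ l, (⟨k, x⟩ : Σ k, M.Γ k) ∈ W M) : GoodS M (Function.update S k l) := by
  intro j
  by_cases h : j = k
  · subst h
    simpa using hl
  · simpa [Function.update_of_ne h] using hS j

theorem simAux_spec (q : TM2.Stmt M.Γ M.Λ M.σ) : ∀ (v : M.σ) (S : ∀ k, List (M.Γ k)),
    pushes M q ⊆ W M → GoodS M S →
    simAux M q (v, encS M S) = (((TM2.stepAux q v S).l, (TM2.stepAux q v S).var),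
      encS M (TM2.stepAux q v S).stk) ∧ GoodS M (TM2.stepAux q v S).stk := by
  induction q with
  | push k f q ih =>
    intro v S hW hS
    simp only [pushes, Set.union_subset_iff] at hW
    have hg : GoodS M (Function.update S k (f v :: S k)) := goodS_update M hS (by
      intro x hx
      rcases List.mem_cons.1 hx with rfl | hx
      · exact hW.1 ⟨v, rfl⟩
      · exact hS k x hx)
    have := ih v _ hW.2 hg
    rw [encS_update] at this
    exact this
  | peek k f q ih =>
    intro v S hW hS
    have := ih (f v (S k).head?) S hW hS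
    simp only [simAux, TM2.stepAux]
    rw [show (encS M S k).head?.bind (sDec M k) = (S k).head? from head_dec M (hS k)]
    exact this
  | pop k f q ih =>
    intro v S hW hS
    have hg : GoodS M (Function.update S k (S k).tail) := goodS_update M hS (by
      intro x hx
      exact hS k x (List.mem_of_mem_tail hx))
    have := ih (f v (S k).head?) _ hW hg
    rw [encS_update, List.map_tail] at this
    simp only [simAux, TM2.stepAux]
    rw [show (encS M S k).head?.bind (sDec M k) = (S k).head? from head_dec M (hS k)]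
    exact this
  | load a q ih =>
    intro v S hW hS
    exact ih (a v) S hW hS
  | branch f q₁ q₂ ih₁ ih₂ =>
    intro v S hW hS
    simp only [pushes, Set.union_subset_iff] at hW
    simp only [simAux, TM2.stepAux]
    cases f v
    · exact ih₂ v S hW.2 hS
    · exact ih₁ v S hW.1 hS
  | goto f => intro v S _ hS; exact ⟨rfl, hS⟩
  | halt => intro v S _ hS; exact ⟨rfl, hS⟩

/-- One simulated step. -/
noncomputable def simStep (s : Stt M) : Stt M :=
  match s.1.1 with
  | none => s
  | some l => simAux M (M.m l) (s.1.2, s.2)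

/-- Coded configurations. -/
noncomputable def encC (c : M.Cfg) : Stt M :=
  ((TM2.Cfg.l c, TM2.Cfg.var c), encS M (TM2.Cfg.stk c))

theorem simStep_spec {c c' : M.Cfg} (hc : GoodS M (TM2.Cfg.stk c)) (h : M.step c = some c') :
    simStep M (encC M c) = encC M c' ∧ GoodS M (TM2.Cfg.stk c') := by
  obtain ⟨l, v, S⟩ := c
  cases l with
  | none => simp [FinTM2.step, TM2.step] at h
  | some l =>
    have h' : TM2.stepAux (M.m l) v S = c' := Option.some.inj h
    subst h'
    exact simAux_spec M (M.m l) v S
      (fun x hx => Or.inr (Set.mem_iUnion.2 ⟨l, hx⟩)) hc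

theorem simStep_iter (n : ℕ) : ∀ {c c' : M.Cfg}, GoodS M (TM2.Cfg.stk c) →
    (flip bind M.step)^[n] (some c) = some c' →
    (simStep M)^[n] (encC M c) = encC M c' ∧ GoodS M (TM2.Cfg.stk c') := by
  induction n with
  | zero =>
    intro c c' hc h
    simp only [Function.iterate_zero, id_eq, Option.some.injEq] at h
    subst h
    exact ⟨rfl, hc⟩
  | succ n ih =>
    intro c c' hc h
    rw [Function.iterate_succ_apply'] at h
    cases h1 : (flip bind M.step)^[n] (some c) with
    | none =>
      rw [h1] at h
      have h' : (none : Option M.Cfg) = some c' := h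
      cases h'
    | some d =>
      rw [h1] at h
      obtain ⟨h2, h3⟩ := ih hc h1
      have h4 : M.step d = some c' := h
      obtain ⟨h5, h6⟩ := simStep_spec M h3 h4
      rw [Function.iterate_succ_apply', h2]
      exact ⟨h5, h6⟩

theorem simStep_halt (n : ℕ) (s : Stt M) (hs : s.1.1 = none) : (simStep M)^[n] s = s := by
  induction n with
  | zero => rfl
  | succ n ih =>
    rw [Function.iterate_succ_apply]
    have : simStep M s = s := by
      unfold simStep
      rw [hs]
    rw [this, ih]

theorem initList_stk (w : List (M.Γ M.k₀)) (k : M.K) :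
    TM2.Cfg.stk (initList M w) k = if h : k = M.k₀ then h ▸ w else [] := by
  unfold initList
  by_cases h : k = M.k₀
  · subst h; simp
  · simp [h]

/-- Number of pushes of a statement. -/
def npush : TM2.Stmt M.Γ M.Λ M.σ → ℕ
  | .push _ _ q => npush q + 1
  | .peek _ _ q => npush q
  | .pop _ _ q => npush q
  | .load _ q => npush q
  | .branch _ q₁ q₂ => npush q₁ + npush q₂
  | .goto _ => 0
  | .halt => 0

theorem simAux_len (q : TM2.Stmt M.Γ M.Λ M.σ) : ∀ (B : ℕ) (p : M.σ × (M.K → List (U M))),
    (∀ k, (p.2 k).length ≤ B) → ∀ k, ((simAux M q p).2 k).length ≤ B + npush M q := by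
  induction q with
  | push k f q ih =>
    intro B p hp j
    have := ih (B + 1) (p.1, Function.update p.2 k (sEnc M k (f p.1) :: p.2 k)) (by
      intro j
      by_cases h : j = k
      · subst h
        simpa using hp j
      · simpa [Function.update_of_ne h] using (hp j).trans (Nat.le_succ B)) j
    simp only [npush]
    exact this.trans (by omega)
  | peek k f q ih =>
    intro B p hp j
    exact ih B (f p.1 ((p.2 k).head?.bind (sDec M k)), p.2) hp j
  | pop k f q ih =>
    intro B p hp j
    refine ih B _ (fun i => ?_) j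
    by_cases h : i = k
    · subst h
      simpa using (hp i).trans (Nat.le_succ B)
    · simpa [Function.update_of_ne h] using hp i
  | load a q ih => intro B p hp j; exact ih B (a p.1, p.2) hp j
  | branch f q₁ q₂ ih₁ ih₂ =>
    intro B p hp j
    simp only [simAux, npush]
    cases f p.1
    · exact (ih₂ B p hp j).trans (by omega)
    · exact (ih₁ B p hp j).trans (by omega)
  | goto f => intro B p hp j; exact hp j
  | halt => intro B p hp j; exact hp j

theorem exists_npush : ∃ c : ℕ, ∀ l, npush M (M.m l) ≤ c := by
  obtain ⟨C, hC⟩ := (Set.finite_range (fun l : M.Λ => npush M (M.m l))).bddAbove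
  exact ⟨C, fun b => hC ⟨b, rfl⟩⟩

theorem simStep_len {c : ℕ} (hc : ∀ l, npush M (M.m l) ≤ c) (B : ℕ) (s : Stt M)
    (hs : ∀ k, (s.2 k).length ≤ B) (k : M.K) : ((simStep M s).2 k).length ≤ B + c := by
  unfold simStep
  obtain ⟨⟨l, v⟩, S⟩ := s
  cases l with
  | none => exact (hs k).trans (Nat.le_add_right _ _)
  | some l => exact (simAux_len M (M.m l) B _ hs k).trans (Nat.add_le_add_left (hc l) B)

theorem simIter_len {c : ℕ} (hc : ∀ l, npush M (M.m l) ≤ c) (n : ℕ) : ∀ (B : ℕ) (s : Stt M),
    (∀ k, (s.2 k).length ≤ B) → ∀ k, (((simStep M)^[n] s).2 k).length ≤ B + n * c := by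
  induction n with
  | zero => intro B s hs k; simpa using hs k
  | succ n ih =>
    intro B s hs k
    rw [Function.iterate_succ_apply]
    refine (ih (B + c) (simStep M s) (simStep_len M hc B s hs) k).trans (le_of_eq ?_)
    ring

end sim

section polysim

variable (M : FinTM2)

attribute [local instance] FinTM2.ΛFin FinTM2.σFin FinTM2.Γk₀Fin FinTM2.kFin

noncomputable local instance instEncσ : Enc M.σ := encFinite M.σ
noncomputable local instance instEncL : Enc (Option M.Λ) := encFinite (Option M.Λ)
noncomputable local instance instEncU : Enc (U M) := encFinite (U M)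

theorem simAux_polyTime (q : TM2.Stmt M.Γ M.Λ M.σ) : PolyTime (simAux M q) := by
  have hupd : ∀ (k : M.K) {f : M.σ × (M.K → List (U M)) → List (U M)}, PolyTime f →
      PolyTime (fun p : M.σ × (M.K → List (U M)) => Function.update p.2 k (f p)) := by
    intro k f hf
    refine polyTime_pi fun j => ?_
    by_cases h : j = k
    · subst h
      exact hf.congr fun x => by simp
    · exact (polyTime_eval [] (PolyTime.snd') j).congr fun x => by
        simp [Function.update_of_ne h]
  have hev : ∀ (k : M.K), PolyTime (fun p : M.σ × (M.K → List (U M)) => p.2 k) := fun k =>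
    polyTime_eval [] (PolyTime.snd') k
  have hcas : ∀ (k : M.K) (g : M.σ → Option (U M) → M.σ),
      PolyTime (fun p : M.σ × (M.K → List (U M)) => g p.1 (p.2 k).head?) := fun k g =>
    PolyTime.finite_comp (fun p : M.σ × Option (U M) => g p.1 p.2)
      (PolyTime.pair PolyTime.fst' (PolyTime.head? (hev k)))
  induction q with
  | push k f q ih =>
    exact ih.comp (PolyTime.pair PolyTime.fst' (hupd k (PolyTime.cons
      (PolyTime.finite_comp (fun v : M.σ => sEnc M k (f v)) PolyTime.fst') (hev k))))
  | peek k f q ih =>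
    exact ih.comp (PolyTime.pair (hcas k fun v a => f v (a.bind (sDec M k))) PolyTime.snd')
  | pop k f q ih =>
    exact ih.comp (PolyTime.pair (hcas k fun v a => f v (a.bind (sDec M k)))
      (hupd k (PolyTime.tail (hev k))))
  | load a q ih =>
    exact ih.comp (PolyTime.pair (PolyTime.finite_comp a PolyTime.fst') PolyTime.snd')
  | branch f q₁ q₂ ih₁ ih₂ =>
    exact PolyTime.cond (PolyTime.finite_comp f PolyTime.fst') ih₁ ih₂
  | goto f =>
    exact PolyTime.pair (PolyTime.pair (PolyTime.finite_comp (fun v : M.σ => some (f v))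
      PolyTime.fst') PolyTime.fst') PolyTime.snd'
  | halt =>
    exact PolyTime.pair (PolyTime.pair (PolyTime.const none) PolyTime.fst') PolyTime.snd'

theorem simStep_polyTime : PolyTime (simStep M) := by
  have h := polyTime_finCases (α := Stt M) (β := Option M.Λ) (γ := Stt M)
    (t := fun s => s.1.1) (by fun_prop)
    (g := fun o s => match o with
      | none => s
      | some l => simAux M (M.m l) (s.1.2, s.2)) (by
      intro o
      cases o with
      | none => exact PolyTime.id
      | some l =>
        exact (simAux_polyTime M (M.m l)).comp (PolyTime.pair (PolyTime.snd (PolyTime.fst'))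
          PolyTime.snd'))
  exact h.congr fun s => by
    unfold simStep
    cases s.1.1 <;> rfl

/-- Initial simulated state. -/
noncomputable def simInit (e : Bool → M.Γ M.k₀) (w : List Bool) : Stt M :=
  open Classical in
  ((some M.main, M.initialState), fun k => if k = M.k₀ then w.map (fun b => sEnc M M.k₀ (e b)) else [])

theorem simInit_polyTime (e : Bool → M.Γ M.k₀) : PolyTime (simInit M e) := by
  classical
  refine PolyTime.pair (PolyTime.const _) (polyTime_pi fun k => ?_)
  by_cases h : k = M.k₀
  · subst h
    refine (PolyTime.map (l := fun w : List Bool => w) (g := fun _ b => sEnc M M.k₀ (e b))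
      PolyTime.id (PolyTime.finite_comp (fun b : Bool => sEnc M M.k₀ (e b))
        PolyTime.snd')).congr fun w => ?_
    simp
  · refine (PolyTime.const []).congr fun w => ?_
    simp [h]

theorem sz_listU_le : ∃ C : ℕ, ∀ l : List (U M), sz l ≤ l.length * (C + 1) + 1 := by
  obtain ⟨C, hC⟩ := exists_sz_le (β := U M)
  exact ⟨C, fun l => sz_le_of_forall fun x _ => hC x⟩

theorem sz_stt_le : ∃ C : ℕ, ∀ (B : ℕ) (s : Stt M), (∀ k, (s.2 k).length ≤ B) →
    sz s ≤ C * (B + 1) := by
  obtain ⟨C, hC⟩ := sz_listU_le M
  obtain ⟨D, hD⟩ := exists_sz_le (β := Option M.Λ)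
  obtain ⟨E, hE⟩ := exists_sz_le (β := M.σ)
  refine ⟨D + E + 3 + Nat.card M.K * (C + 3), fun B s hs => ?_⟩
  have h1 : sz s = sz s.1.1 + sz s.1.2 + 1 + sz s.2 + 1 := by
    rw [← sz_prod, ← sz_prod]
  have h2 := hD s.1.1
  have h3 := hE s.1.2
  have h4 : sz s.2 ≤ Nat.card M.K * ((B * (C + 1) + 1) + 1) + 1 := sz_pi_le s.2 _ fun k =>
    (hC (s.2 k)).trans (Nat.add_le_add_right (Nat.mul_le_mul_right _ (hs k)) 1)
  rw [h1]
  calc sz s.1.1 + sz s.1.2 + 1 + sz s.2 + 1
      ≤ D + E + 1 + (Nat.card M.K * ((B * (C + 1) + 1) + 1) + 1) + 1 := by omega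
    _ ≤ (D + E + 3 + Nat.card M.K * (C + 3)) * (B + 1) := by
      have : Nat.card M.K * ((B * (C + 1) + 1) + 1) ≤ Nat.card M.K * ((C + 3) * (B + 1)) :=
        Nat.mul_le_mul_left _ (by nlinarith)
      nlinarith

/-- The bits read off an output stack. -/
noncomputable def simOut (e : M.Γ M.k₁ → Bool) (s : Stt M) : List Bool :=
  (s.2 M.k₁).filterMap (fun u => (sDec M M.k₁ u).map e)

theorem simOut_polyTime (e : M.Γ M.k₁ → Bool) : PolyTime (simOut M e) :=
  PolyTime.filterMap (g := fun _ u => (sDec M M.k₁ u).map e) (polyTime_eval [] PolyTime.snd' _)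
    (PolyTime.finite_comp (fun u : U M => (sDec M M.k₁ u).map e) PolyTime.snd')

theorem polyEval_polyTime {α : Type} [Enc α] {n : α → ℕ} (hn : PolyTime n) (P : Polynomial ℕ) :
    PolyTime (fun x => P.eval (n x)) := by
  induction P using Polynomial.induction_on' with
  | add p q hp hq => exact (hp.natAdd hq).congr fun x => by simp
  | monomial k a =>
    exact ((PolyTime.const a).natMul (hn.natPowConst k)).congr fun x => by
      simp [Polynomial.eval_monomial]

/-- The simulation of the machine for a polynomial number of steps. -/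
noncomputable def simFun (e : Bool → M.Γ M.k₀) (e' : M.Γ M.k₁ → Bool) (P : Polynomial ℕ)
    (w : List Bool) : List Bool :=
  simOut M e' ((simStep M)^[P.eval w.length] (simInit M e w))

theorem simFun_polyTime (e : Bool → M.Γ M.k₀) (e' : M.Γ M.k₁ → Bool) (P : Polynomial ℕ) :
    PolyTime (simFun M e e' P) := by
  obtain ⟨c, hc⟩ := exists_npush M
  obtain ⟨C, hC⟩ := sz_stt_le M
  have hn : PolyTime (fun w : List Bool => P.eval w.length) :=
    polyEval_polyTime (by fun_prop) P
  refine (simOut_polyTime M e').comp (PolyTime.iterate (s := fun w => C * ((w.length +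
    P.eval w.length * c) + 1)) (simStep_polyTime M) hn (simInit_polyTime M e) ?_ ?_)
  · have h1 : PBdd (fun w : List Bool => w.length) := PBdd.size.of_le length_le_sz
    have h2 : PBdd (fun w : List Bool => P.eval w.length) := h1.eval P
    fun_prop
  · intro w i hi
    have h1 := hC (w.length + i * c) ((simStep M)^[i] (simInit M e w))
      (simIter_len M hc i w.length _ fun k => by
        classical
        unfold simInit
        by_cases h : k = M.k₀
        · subst h; simp
        · simp [h])
    refine h1.trans (Nat.mul_le_mul_left _ ?_)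
    have := Nat.mul_le_mul_right c hi.le
    omega

end polysim

/-- Every Turing machine of Mathlib running in polynomial time on bit strings is simulated by a
polynomial-time function on bit strings. -/
theorem exists_polyTime_of_tm2 {α β : Type} {ea : α → List Bool} {eb : β → List Bool} {f : α → β}
    (h : Nonempty (TM2ComputableInPolyTime ea eb f)) :
    ∃ g : List Bool → List Bool, PolyTime g ∧ ∀ x, g (ea x) = eb (f x) := by
  obtain ⟨h⟩ := h
  refine ⟨simFun h.tm h.inputAlphabet.invFun h.outputAlphabet.toFun h.time,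
    simFun_polyTime _ _ _ _, fun x => ?_⟩
  have ho := h.outputsFun x
  obtain ⟨⟨n, hn⟩, hle⟩ := ho
  have hinit : encC h.tm (initList h.tm ((ea x).map h.inputAlphabet.invFun)) =
      simInit h.tm h.inputAlphabet.invFun (ea x) := by
    refine Prod.ext rfl ?_
    funext k
    change (TM2.Cfg.stk (initList h.tm ((ea x).map h.inputAlphabet.invFun)) k).map
      (sEnc h.tm k) = _
    rw [initList_stk]
    classical
    unfold simInit
    by_cases hk : k = h.tm.k₀
    · subst hk
      simp
    · simp [hk]
  have hgood : GoodS h.tm (TM2.Cfg.stk (initList h.tm ((ea x).map h.inputAlphabet.invFun))) := by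
    intro k y hy
    rw [initList_stk] at hy
    by_cases hk : k = h.tm.k₀
    · subst hk
      exact Or.inl ⟨y, rfl⟩
    · simp [hk] at hy
  have hn' : (flip bind h.tm.step)^[n] (some (initList h.tm
      ((ea x).map h.inputAlphabet.invFun))) = some (haltList h.tm
      ((eb (f x)).map h.outputAlphabet.invFun)) := hn
  obtain ⟨h1, h2⟩ := simStep_iter h.tm n hgood hn'
  obtain ⟨m, hm⟩ := Nat.exists_eq_add_of_le hle
  have h3 : (simStep h.tm)^[h.time.eval (ea x).length] (simInit h.tm h.inputAlphabet.invFun (ea x))
      = encC h.tm (haltList h.tm ((eb (f x)).map h.outputAlphabet.invFun)) := by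
    rw [hm, add_comm, Function.iterate_add_apply, ← hinit, h1]
    exact simStep_halt h.tm m _ rfl
  unfold simFun
  rw [h3]
  have h4 : (TM2.Cfg.stk (haltList h.tm ((eb (f x)).map h.outputAlphabet.invFun)) h.tm.k₁) =
      (eb (f x)).map h.outputAlphabet.invFun := by
    unfold haltList
    simp
  have h5 := h2 h.tm.k₁
  rw [h4] at h5
  change ((TM2.Cfg.stk (haltList h.tm ((eb (f x)).map h.outputAlphabet.invFun)) h.tm.k₁).map
    (sEnc h.tm h.tm.k₁)).filterMap _ = _
  rw [h4]
  generalize eb (f x) = w at h5
  induction w with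
  | nil => rfl
  | cons b w ih =>
    have h6 := ih fun y hy => h5 y (by simp at hy ⊢; tauto)
    have h7 := sDec_sEnc h.tm (h5 (h.outputAlphabet.invFun b) (by simp))
    rw [List.map_cons, List.map_cons, List.filterMap_cons, h7]
    simp only [Option.map_some]
    rw [h6]
    simp

end Pool.Agent.TMB67
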