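import Pool.Agent.TMBridge67.Fin
import Pool.Agent.PT.Arith
import Pool.Agent.PT.Bridge

/-!
# A universal polynomial-time function
-/

set_option autoImplicit false

namespace Pool.Agent.TMB67

open Pool.Agent.PT

noncomputable instance instEncStk : Enc Stk := encFinite Stk

instance instEncSt : Enc St := Enc.ofInj (fun S => (S.a, S.b, S.c, S.d)) (by
  rintro ⟨a, b, c, d⟩ ⟨a', b', c', d'⟩ h
  simpa using h)

theorem St_tuple_polyTime : PolyTime (fun S : St => (S.a, S.b, S.c, S.d)) :=
  PolyTime.of_toD fun _ => rfl

theorem St_mk_polyTime {α : Type} [Enc α] {a b c d : α → List Bool} (ha : PolyTime a)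
    (hb : PolyTime b) (hc : PolyTime c) (hd : PolyTime d) :
    PolyTime (fun x => (⟨a x, b x, c x, d x⟩ : St)) :=
  (ha.pair (hb.pair (hc.pair hd))).congr_toD fun _ => rfl

theorem St_a_polyTime {α : Type} [Enc α] {f : α → St} (hf : PolyTime f) :
    PolyTime (fun x => (f x).a) := PolyTime.fst (St_tuple_polyTime.comp hf)

theorem St_b_polyTime {α : Type} [Enc α] {f : α → St} (hf : PolyTime f) :
    PolyTime (fun x => (f x).b) := PolyTime.fst (PolyTime.snd (St_tuple_polyTime.comp hf))

theorem St_c_polyTime {α : Type} [Enc α] {f : α → St} (hf : PolyTime f) :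
    PolyTime (fun x => (f x).c) :=
  PolyTime.fst (PolyTime.snd (PolyTime.snd (St_tuple_polyTime.comp hf)))

theorem St_d_polyTime {α : Type} [Enc α] {f : α → St} (hf : PolyTime f) :
    PolyTime (fun x => (f x).d) :=
  PolyTime.snd (PolyTime.snd (PolyTime.snd (St_tuple_polyTime.comp hf)))

theorem St_get_polyTime {α : Type} [Enc α] {f : α → St} {k : α → Stk} (hf : PolyTime f)
    (hk : PolyTime k) : PolyTime (fun x => (f x).get (k x)) := by
  refine polyTime_finCases (t := k) hk (g := fun k x => (f x).get k) fun k => ?_
  cases k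
  · exact St_a_polyTime hf
  · exact St_b_polyTime hf
  · exact St_c_polyTime hf
  · exact St_d_polyTime hf

theorem St_set_polyTime {α : Type} [Enc α] {f : α → St} {k : α → Stk} {l : α → List Bool}
    (hf : PolyTime f) (hk : PolyTime k) (hl : PolyTime l) :
    PolyTime (fun x => (f x).set (k x) (l x)) := by
  refine polyTime_finCases (t := k) hk (g := fun k x => (f x).set k (l x)) fun k => ?_
  cases k
  · exact St_mk_polyTime hl (St_b_polyTime hf) (St_c_polyTime hf) (St_d_polyTime hf)
  · exact St_mk_polyTime (St_a_polyTime hf) hl (St_c_polyTime hf) (St_d_polyTime hf)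
  · exact St_mk_polyTime (St_a_polyTime hf) (St_b_polyTime hf) hl (St_d_polyTime hf)
  · exact St_mk_polyTime (St_a_polyTime hf) (St_b_polyTime hf) (St_c_polyTime hf) hl

/-- The tag used for codes of programs. -/
abbrev tg : Dt := .cons .nil .nil

/-- Tree codes of programs. -/
noncomputable def cmdD : Cmd → Dt
  | .skip => .cons .nil .nil
  | .push k x => .cons tg (.cons .nil (Enc.toD (k, x)))
  | .seq p q => .cons tg (.cons tg (.cons .nil (.cons (cmdD p) (cmdD q))))
  | .case k p q r => .cons tg (.cons tg (.cons tg (.cons .nil (.cons (Enc.toD k)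
      (.cons (cmdD p) (.cons (cmdD q) (cmdD r)))))))
  | .loop k p => .cons tg (.cons tg (.cons tg (.cons tg (.cons (Enc.toD k) (cmdD p)))))

theorem cmdD_inj : Function.Injective cmdD := by
  intro x
  induction x with
  | skip => intro y h; cases y <;> simp [cmdD] at h ⊢
  | push k x =>
    intro y h
    cases y with
    | push k' x' =>
      simp only [cmdD, Dt.cons.injEq, true_and] at h
      have := Enc.inj h
      simp only [Prod.mk.injEq] at this
      rw [this.1, this.2]
    | _ => simp [cmdD] at h
  | seq p q ihp ihq =>
    intro y h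
    cases y with
    | seq p' q' =>
      simp only [cmdD, Dt.cons.injEq, true_and] at h
      rw [ihp h.1, ihq h.2]
    | _ => simp [cmdD] at h
  | case k p q r ihp ihq ihr =>
    intro y h
    cases y with
    | case k' p' q' r' =>
      simp only [cmdD, Dt.cons.injEq, true_and] at h
      rw [Enc.inj h.1, ihp h.2.1, ihq h.2.2.1, ihr h.2.2.2]
    | _ => simp [cmdD] at h
  | loop k p ihp =>
    intro y h
    cases y with
    | loop k' p' =>
      simp only [cmdD, Dt.cons.injEq, true_and] at h
      rw [Enc.inj h.1, ihp h.2]
    | _ => simp [cmdD] at h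

noncomputable instance instEncCmd : Enc Cmd := ⟨cmdD, cmdD_inj⟩

/-- Unfolded programs. -/
abbrev CU := Unit ⊕ ((Stk × Bool) ⊕ ((Cmd × Cmd) ⊕ ((Stk × Cmd × Cmd × Cmd) ⊕ (Stk × Cmd))))

/-- The outermost constructor. -/
def unfoldC : Cmd → CU
  | .skip => .inl ()
  | .push k x => .inr (.inl (k, x))
  | .seq p q => .inr (.inr (.inl (p, q)))
  | .case k p q r => .inr (.inr (.inr (.inl (k, p, q, r))))
  | .loop k p => .inr (.inr (.inr (.inr (k, p))))

theorem unfoldC_toD (c : Cmd) : Enc.toD (unfoldC c) = Enc.toD c := by cases c <;> rfl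

theorem unfoldC_polyTime : PolyTime unfoldC := PolyTime.of_toD unfoldC_toD

/-- One step of the interpreter. -/
def stepC (s : List Cmd × St) : List Cmd × St :=
  List.casesOn (motive := fun _ => List Cmd × St) s.1 s fun c r =>
    Sum.casesOn (motive := fun _ => List Cmd × St) (unfoldC c) (fun _ => (r, s.2)) fun z =>
      Sum.casesOn (motive := fun _ => List Cmd × St) z
        (fun kx => (r, s.2.set kx.1 (kx.2 :: s.2.get kx.1))) fun z =>
          Sum.casesOn (motive := fun _ => List Cmd × St) z
            (fun pq => (pq.1 :: pq.2 :: r, s.2)) fun z =>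
              Sum.casesOn (motive := fun _ => List Cmd × St) z
                (fun y => List.casesOn (motive := fun _ => List Cmd × St) (s.2.get y.1)
                  (y.2.1 :: r, s.2)
                  fun b l => (bif b then y.2.2.2 :: r else y.2.2.1 :: r, s.2.set y.1 l))
                (fun y => List.casesOn (motive := fun _ => List Cmd × St) (s.2.get y.1)
                  (r, s.2)
                  fun b l => (bif b then y.2 :: c :: r else r, s.2.set y.1 l))

theorem stepC_polyTime : PolyTime stepC := by
  unfold stepC
  refine PolyTime.listCases (l := fun s : List Cmd × St => s.1) (by fun_prop) (by fun_prop) ?_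
  refine PolyTime.sumCases (unfoldC_polyTime.comp (by fun_prop)) (by fun_prop) ?_
  refine PolyTime.sumCases (by fun_prop) ?_ ?_
  · exact PolyTime.pair (by fun_prop) (St_set_polyTime (by fun_prop) (by fun_prop)
      (PolyTime.cons (by fun_prop) (St_get_polyTime (by fun_prop) (by fun_prop))))
  refine PolyTime.sumCases (by fun_prop) (by fun_prop) ?_
  refine PolyTime.sumCases (by fun_prop) ?_ ?_
  · refine PolyTime.listCases (St_get_polyTime (by fun_prop) (by fun_prop)) (by fun_prop) ?_
    exact PolyTime.pair (PolyTime.cond (by fun_prop) (by fun_prop) (by fun_prop))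
      (St_set_polyTime (by fun_prop) (by fun_prop) (by fun_prop))
  · refine PolyTime.listCases (St_get_polyTime (by fun_prop) (by fun_prop)) (by fun_prop) ?_
    exact PolyTime.pair (PolyTime.cond (by fun_prop) (by fun_prop) (by fun_prop))
      (St_set_polyTime (by fun_prop) (by fun_prop) (by fun_prop))

/-- The interpreter follows the big-step semantics. -/
theorem stepC_run {q : Cmd} {S S' : St} {t : ℕ} (h : Run q S S' t) :
    ∀ r : List Cmd, stepC^[t] (q :: r, S) = (r, S') := by
  induction h with
  | skip S => intro r; rfl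
  | push k x S => intro r; rfl
  | @seq u w S S' S'' t t' _ _ ih1 ih2 =>
    intro r
    have e : t + t' + 1 = t' + (t + 1) := by ring
    rw [e, Function.iterate_add_apply, Function.iterate_add_apply, Function.iterate_one]
    have hs : stepC (Cmd.seq u w :: r, S) = (u :: w :: r, S) := rfl
    rw [hs, ih1, ih2]
  | @caseNone k u w s S S' t hg _ ih =>
    intro r
    rw [Function.iterate_add_apply, Function.iterate_one]
    have hs : stepC (Cmd.case k u w s :: r, S) = (u :: r, S) := by
      simp only [stepC, unfoldC, hg]
    rw [hs, ih]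
  | @caseFalse k u w s S S' l t hg _ ih =>
    intro r
    rw [Function.iterate_add_apply, Function.iterate_one]
    have hs : stepC (Cmd.case k u w s :: r, S) = (w :: r, S.set k l) := by
      simp only [stepC, unfoldC, hg, cond_false]
    rw [hs, ih]
  | @caseTrue k u w s S S' l t hg _ ih =>
    intro r
    rw [Function.iterate_add_apply, Function.iterate_one]
    have hs : stepC (Cmd.case k u w s :: r, S) = (s :: r, S.set k l) := by
      simp only [stepC, unfoldC, hg, cond_true]
    rw [hs, ih]
  | @loopNone k u S hg =>
    intro r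
    simp only [Function.iterate_one, stepC, unfoldC, hg]
  | @loopFalse k u S l hg =>
    intro r
    simp only [Function.iterate_one, stepC, unfoldC, hg, cond_false]
  | @loopTrue k u S S' S'' l t t' hg _ _ ih1 ih2 =>
    intro r
    have e : t + t' + 1 = t' + (t + 1) := by ring
    rw [e, Function.iterate_add_apply, Function.iterate_add_apply, Function.iterate_one]
    have hs : stepC (Cmd.loop k u :: r, S) = (u :: Cmd.loop k u :: r, S.set k l) := by
      simp only [stepC, unfoldC, hg, cond_true]
    rw [hs, ih1, ih2]

theorem stepC_nil (S : St) (t : ℕ) : stepC^[t] ([], S) = ([], S) := by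
  induction t with
  | zero => rfl
  | succ t ih => rw [Function.iterate_succ_apply]; exact ih

theorem sz_eq_of_toD {α β : Type} [Enc α] [Enc β] {x : α} {y : β} (h : Enc.toD x = Enc.toD y) :
    sz x = sz y := by rw [sz, sz, code, code, h]

theorem sz_seq (p q : Cmd) : sz p + sz q + 1 ≤ sz (Cmd.seq p q) := by
  rw [← sz_eq_of_toD (unfoldC_toD (Cmd.seq p q))]
  have h : sz (unfoldC (Cmd.seq p q)) = 4 + (4 + (2 + (sz p + sz q + 1))) := by
    change (Dt.enc (Enc.toD (unfoldC (Cmd.seq p q)))).length = _
    simp only [unfoldC, toD_inr, toD_inl, toD_prod, Dt.enc_cons, Dt.enc_nil, List.length_cons,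
      List.length_append, List.length_nil]
    change _ = 4 + (4 + (2 + ((Enc.toD p).enc.length + (Enc.toD q).enc.length + 1)))
    omega
  omega

theorem sz_case (k : Stk) (p q r : Cmd) : sz p + 1 ≤ sz (Cmd.case k p q r) ∧
    sz q + 1 ≤ sz (Cmd.case k p q r) ∧ sz r + 1 ≤ sz (Cmd.case k p q r) := by
  rw [← sz_eq_of_toD (unfoldC_toD (Cmd.case k p q r))]
  have h : sz (unfoldC (Cmd.case k p q r)) =
      4 + (4 + (4 + (2 + (sz k + (sz p + (sz q + sz r + 1) + 1) + 1)))) := by
    change (Dt.enc (Enc.toD (unfoldC (Cmd.case k p q r)))).length = _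
    simp only [unfoldC, toD_inr, toD_inl, toD_prod, Dt.enc_cons, Dt.enc_nil, List.length_cons,
      List.length_append, List.length_nil]
    change _ = 4 + (4 + (4 + (2 + ((Enc.toD k).enc.length + ((Enc.toD p).enc.length +
      ((Enc.toD q).enc.length + (Enc.toD r).enc.length + 1) + 1) + 1))))
    omega
  omega

theorem sz_loop (k : Stk) (p : Cmd) : sz p + 1 ≤ sz (Cmd.loop k p) := by
  rw [← sz_eq_of_toD (unfoldC_toD (Cmd.loop k p))]
  have h : sz (unfoldC (Cmd.loop k p)) = 4 + (4 + (4 + (4 + (sz k + sz p + 1)))) := by
    change (Dt.enc (Enc.toD (unfoldC (Cmd.loop k p)))).length = _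
    simp only [unfoldC, toD_inr, toD_prod, Dt.enc_cons, Dt.enc_nil, List.length_cons,
      List.length_append, List.length_nil]
    change _ = 4 + (4 + (4 + (4 + ((Enc.toD k).enc.length + (Enc.toD p).enc.length + 1))))
    omega
  omega

/-- All programs on the continuation stack have size at most `n`. -/
def SInv (n : ℕ) (s : List Cmd × St) : Prop := ∀ c ∈ s.1, sz c ≤ n

theorem len_set_tail (S : St) (k : Stk) {b : Bool} {l : List Bool} (h : S.get k = b :: l) :
    (S.set k l).len ≤ S.len := by
  have := S.len_set k l
  rw [h, List.length_cons] at this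
  omega

theorem stepC_inv {n : ℕ} {s : List Cmd × St} (h : SInv n s) :
    SInv n (stepC s) ∧ sz (stepC s).1 ≤ sz s.1 + (n + 1) ∧ (stepC s).2.len ≤ s.2.len + 1 := by
  obtain ⟨l, S⟩ := s
  cases l with
  | nil => exact ⟨h, Nat.le_add_right _ _, Nat.le_add_right _ _⟩
  | cons c r =>
    have hc : sz c ≤ n := h c (by simp)
    have hr : ∀ c ∈ r, sz c ≤ n := fun c hc => h c (by simp [hc])
    have hsz : sz (c :: r) = sz c + sz r + 1 := sz_cons _ _
    cases c with
    | skip =>
      refine ⟨hr, ?_, Nat.le_add_right _ _⟩
      change sz r ≤ sz (_ :: r) + (n + 1)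
      omega
    | push k x =>
      refine ⟨hr, ?_, ?_⟩
      · change sz r ≤ sz (_ :: r) + (n + 1)
        omega
      · change (S.set k (x :: S.get k)).len ≤ S.len + 1
        have := S.len_set k (x :: S.get k)
        rw [List.length_cons] at this
        omega
    | seq u v =>
      have h1 := sz_seq u v
      refine ⟨?_, ?_, Nat.le_add_right _ _⟩
      · intro c hc
        change c ∈ u :: v :: r at hc
        simp only [List.mem_cons] at hc
        rcases hc with rfl | rfl | hc
        · omega
        · omega
        · exact hr c hc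
      · change sz (u :: v :: r) ≤ sz (Cmd.seq u v :: r) + (n + 1)
        rw [sz_cons, sz_cons]
        omega
    | case k u v w =>
      obtain ⟨h1, h2, h3⟩ := sz_case k u v w
      cases hg : S.get k with
      | nil =>
        have hs : stepC (Cmd.case k u v w :: r, S) = (u :: r, S) := by
          simp only [stepC, unfoldC, hg]
        rw [hs]
        refine ⟨?_, ?_, Nat.le_add_right _ _⟩
        · intro c hc
          rcases List.mem_cons.1 hc with rfl | hc
          · omega
          · exact hr c hc
        · change sz (u :: r) ≤ sz (Cmd.case k u v w :: r) + (n + 1)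
          rw [sz_cons]
          omega
      | cons b l =>
        have hl := len_set_tail S k hg
        cases b
        · have hs : stepC (Cmd.case k u v w :: r, S) = (v :: r, S.set k l) := by
            simp only [stepC, unfoldC, hg, cond_false]
          rw [hs]
          refine ⟨?_, ?_, ?_⟩
          · intro c hc
            rcases List.mem_cons.1 hc with rfl | hc
            · omega
            · exact hr c hc
          · change sz (v :: r) ≤ sz (Cmd.case k u v w :: r) + (n + 1)
            rw [sz_cons]
            omega
          · exact hl.trans (Nat.le_add_right _ _)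
        · have hs : stepC (Cmd.case k u v w :: r, S) = (w :: r, S.set k l) := by
            simp only [stepC, unfoldC, hg, cond_true]
          rw [hs]
          refine ⟨?_, ?_, ?_⟩
          · intro c hc
            rcases List.mem_cons.1 hc with rfl | hc
            · omega
            · exact hr c hc
          · change sz (w :: r) ≤ sz (Cmd.case k u v w :: r) + (n + 1)
            rw [sz_cons]
            omega
          · exact hl.trans (Nat.le_add_right _ _)
    | loop k u =>
      have h1 := sz_loop k u
      cases hg : S.get k with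
      | nil =>
        have hs : stepC (Cmd.loop k u :: r, S) = (r, S) := by
          simp only [stepC, unfoldC, hg]
        rw [hs]
        refine ⟨hr, ?_, Nat.le_add_right _ _⟩
        change sz r ≤ sz (_ :: r) + (n + 1)
        omega
      | cons b l =>
        have hl := len_set_tail S k hg
        cases b
        · have hs : stepC (Cmd.loop k u :: r, S) = (r, S.set k l) := by
            simp only [stepC, unfoldC, hg, cond_false]
          rw [hs]
          refine ⟨hr, ?_, ?_⟩
          · change sz r ≤ sz (_ :: r) + (n + 1)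
            omega
          · exact hl.trans (Nat.le_add_right _ _)
        · have hs : stepC (Cmd.loop k u :: r, S) = (u :: Cmd.loop k u :: r, S.set k l) := by
            simp only [stepC, unfoldC, hg, cond_true]
          rw [hs]
          refine ⟨?_, ?_, ?_⟩
          · intro c hc
            simp only [List.mem_cons] at hc
            rcases hc with rfl | rfl | hc
            · omega
            · exact hc
            · exact hr c hc
          · change sz (u :: Cmd.loop k u :: r) ≤ sz (Cmd.loop k u :: r) + (n + 1)
            rw [sz_cons u]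
            omega
          · exact hl.trans (Nat.le_add_right _ _)

theorem stepC_iter_inv {n : ℕ} (t : ℕ) : ∀ {s : List Cmd × St}, SInv n s →
    SInv n (stepC^[t] s) ∧ sz (stepC^[t] s).1 ≤ sz s.1 + t * (n + 1) ∧
      (stepC^[t] s).2.len ≤ s.2.len + t := by
  induction t with
  | zero => intro s h; simpa using h
  | succ t ih =>
    intro s h
    obtain ⟨h1, h2, h3⟩ := stepC_inv h
    obtain ⟨h4, h5, h6⟩ := ih h1
    rw [Function.iterate_succ_apply]
    refine ⟨h4, h5.trans ?_, h6.trans (by omega)⟩
    rw [Nat.add_mul]
    omega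

theorem sz_St (S : St) : sz S ≤ 4 * S.len + 7 := by
  have h : sz S = sz (S.a, S.b, S.c, S.d) := sz_eq_of_toD rfl
  simp only [sz_prod] at h
  have h1 := sz_listBool S.a
  have h2 := sz_listBool S.b
  have h3 := sz_listBool S.c
  have h4 := sz_listBool S.d
  rw [h, St.len]
  omega

/-- Run the program `p` for `t` steps on the raw input `x`. -/
def uniRaw (p : Cmd) (t : ℕ) (x : List Bool) : List Bool :=
  (stepC^[t] ([p], ⟨x, [], [], []⟩)).2.a

theorem uniRaw_polyTime : PolyTime (fun q : Cmd × ℕ × List Bool => uniRaw q.1 q.2.1 q.2.2) := by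
  unfold uniRaw
  refine St_a_polyTime (PolyTime.snd ?_)
  refine PolyTime.iterate (f := stepC) (n := fun q : Cmd × ℕ × List Bool => q.2.1)
    (g := fun q => ([q.1], ⟨q.2.2, [], [], []⟩)) stepC_polyTime (by fun_prop) ?_
    (s := fun q => (sz q.1 + 2 + q.2.1 * (sz q.1 + 1)) + (4 * (q.2.2.length + q.2.1) + 7) + 1) ?_ ?_
  · exact PolyTime.pair (by fun_prop) (St_mk_polyTime (by fun_prop) (by fun_prop) (by fun_prop)
      (by fun_prop))
  · have h1 : PBdd (fun q : Cmd × ℕ × List Bool => q.2.1) :=
      PBdd.size.of_le fun q => by
        rw [sz_prod, sz_prod, sz_nat]; omega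
    have h2 : PBdd (fun q : Cmd × ℕ × List Bool => q.2.2.length) :=
      PBdd.size.of_le fun q => by
        have := length_le_sz q.2.2
        rw [sz_prod, sz_prod]; omega
    have h3 : PBdd (fun q : Cmd × ℕ × List Bool => sz q.1) :=
      PBdd.size.of_le fun q => by
        rw [sz_prod]; omega
    fun_prop
  · intro q i hi
    have h0 : SInv (sz q.1) (([q.1], ⟨q.2.2, [], [], []⟩) : List Cmd × St) := by
      intro c hc
      rcases List.mem_singleton.1 hc with rfl
      exact le_rfl
    obtain ⟨_, h1, h2⟩ := stepC_iter_inv i h0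
    have h3 := sz_St (stepC^[i] ([q.1], ⟨q.2.2, [], [], []⟩)).2
    have h4 : i * (sz q.1 + 1) ≤ q.2.1 * (sz q.1 + 1) := Nat.mul_le_mul_right _ hi.le
    have h5 : sz ([q.1] : List Cmd) = sz q.1 + 2 := by rw [sz_cons, sz_nil]
    simp only [h5, St.len, List.length_nil] at h1 h2
    rw [show sz (stepC^[i] ([q.1], ⟨q.2.2, [], [], []⟩)) =
      sz (stepC^[i] ([q.1], ⟨q.2.2, [], [], []⟩)).1 +
      sz (stepC^[i] ([q.1], ⟨q.2.2, [], [], []⟩)).2 + 1 from sz_prod _]
    simp only [St.len] at h3
    omega

end Pool.Agent.TMB67
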